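import Mathlib

set_option autoImplicit false

namespace Pool.Agent.Results.MP_322323_co.FailsForLargeN

/-- A binary partial word; `none` is a hole, `some false` is the letter 0, `some true` is 1. -/
abbrev PWord : Type := List (Option Bool)

/-- `u ⊂ v` for a full word `v`: equal length, and `v` carries the letter of `u` at every
position where `u` is not a hole. -/
def ContainedIn (u : PWord) (v : List Bool) : Prop :=
  List.Forall₂ (fun a b => a = none ∨ a = some b) u v

/-- The nonempty full words `x` such that some factor `u` of `w` satisfies `u ⊂ xx`. -/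
def squareRoots (w : PWord) : Set (List Bool) :=
  {x | x ≠ [] ∧ ∃ u : PWord, u <:+: w ∧ ContainedIn u (x ++ x)}

/-- `Sq(w)`: the number of distinct nonempty `x` such that `xx` is compatible with a factor. -/
noncomputable def Sq (w : PWord) : ℕ := (squareRoots w).ncard

/-- The number of holes. -/
def holes (w : PWord) : ℕ := w.count none

/-- `w'` is obtained from `w` by replacing exactly one hole by a letter. -/
def Strengthening (w w' : PWord) : Prop :=
  ∃ (i : ℕ) (c : Bool), w[i]? = some none ∧ w' = w.set i (some c)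

/-- All values `Sq(w) - Sq(w')`, `w` of length `n` with exactly `h` holes and `w'` a
strengthening of `w`. -/
def drops (h n : ℕ) : Set ℤ :=
  {d | ∃ w w' : PWord, w.length = n ∧ holes w = h ∧ Strengthening w w' ∧
    d = (Sq w : ℤ) - (Sq w' : ℤ)}

/-! ### Square roots, by positions -/

lemma factor_iff (n : ℕ) (f : ℕ → Option Bool) (v : List Bool) :
    (∃ u : PWord, u <:+: (List.range n).map f ∧ ContainedIn u v) ↔
      ∃ i, i + v.length ≤ n ∧ ∀ (j : ℕ) (hj : j < v.length), f (i + j) = none ∨
        f (i + j) = some v[j] := by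
  constructor
  · rintro ⟨u, ⟨s, t, hw⟩, hu⟩
    have hlen : u.length = v.length := hu.length_eq
    have hl := congrArg List.length hw
    simp only [List.length_append, List.length_map, List.length_range] at hl
    refine ⟨s.length, by omega, fun j hj => ?_⟩
    obtain ⟨-, h2⟩ := List.forall₂_iff_get.1 hu
    have h3 := h2 j (by omega) hj
    have h4 : u.get ⟨j, by omega⟩ = f (s.length + j) := by
      have h5 : ((List.range n).map f)[s.length + j]? = some (f (s.length + j)) := by
        rw [List.getElem?_map, List.getElem?_range (by omega)]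
        rfl
      rw [← hw, List.append_assoc, List.getElem?_append_right (by omega),
        List.getElem?_append_left (by omega)] at h5
      have e : s.length + j - s.length = j := by omega
      rw [e, List.getElem?_eq_getElem (by omega)] at h5
      exact Option.some_injective _ h5
    rw [h4] at h3
    exact h3
  · rintro ⟨i, hi, h⟩
    refine ⟨(((List.range n).map f).drop i).take v.length,
      (List.take_prefix _ _).isInfix.trans (List.drop_suffix _ _).isInfix, ?_⟩
    refine List.forall₂_iff_get.2 ⟨?_, fun j h1 h2 => ?_⟩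
    · simp only [List.length_take, List.length_drop, List.length_map, List.length_range]
      omega
    · have h3 := h j h2
      have h4 : ((((List.range n).map f).drop i).take v.length).get ⟨j, h1⟩ = f (i + j) := by
        simp
      rw [h4]
      exact h3

/-- the word `1...101...1` of length `L` with the letter 0 at position `p` (all ones if `L ≤ p`) -/
def X (L p : ℕ) : List Bool := (List.range L).map (fun j => decide (j ≠ p))

lemma X_length (L p : ℕ) : (X L p).length = L := by simp [X]

lemma XX_length (L p : ℕ) : (X L p ++ X L p).length = 2 * L := by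
  rw [List.length_append, X_length]; ring

lemma XX_get (L p j : ℕ) (hj : j < (X L p ++ X L p).length) :
    (X L p ++ X L p)[j] = decide (¬ ((j < L ∧ j = p) ∨ (L ≤ j ∧ j = p + L))) := by
  rw [XX_length] at hj
  by_cases h : j < L
  · rw [List.getElem_append_left (by rw [X_length]; exact h)]
    simp only [X, List.getElem_map, List.getElem_range]
    congr 1
    refine propext ?_
    constructor
    · intro h1 h2
      omega
    · intro h1 h2
      exact h1 (Or.inl ⟨h, h2⟩)
  · rw [List.getElem_append_right (by rw [X_length]; omega)]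
    simp only [X, List.getElem_map, List.getElem_range, List.length_map, List.length_range]
    congr 1
    refine propext ?_
    constructor
    · intro h1 h2
      omega
    · intro h1 h2
      exact h1 (Or.inr ⟨by omega, by omega⟩)

lemma X_inj {L p L' p' : ℕ} (h : X L p = X L' p') (hp : p ≤ L) (hp' : p' ≤ L') :
    L = L' ∧ p = p' := by
  have h1 := congrArg List.length h
  rw [X_length, X_length] at h1
  subst h1
  refine ⟨rfl, ?_⟩
  by_contra hne
  have key : ∀ a b : ℕ, X L a = X L b → a < L → a = b := by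
    intro a b hab ha
    have h2 : (X L a)[a]? = (X L b)[a]? := by rw [hab]
    simp only [X, List.getElem?_map, List.getElem?_range ha, Option.map_some,
      Option.some.injEq, ne_eq, not_true_eq_false, decide_false] at h2
    by_contra hc
    rw [eq_comm, decide_eq_false_iff_not] at h2
    exact h2 hc
  rcases Nat.lt_or_ge p L with hlt | hge
  · exact hne (key p p' h hlt)
  · rcases Nat.lt_or_ge p' L with hlt' | hge'
    · exact hne (key p' p h.symm hlt').symm
    · omega

/-! ### The words -/

/-- The letter at position `i` of the word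
`1^m 0 1^(2m+5) 0 1^(m+3) ? # 1^(m+1) 0 1^(2m+5) 0 1^s`; for `c = true` the hole `#` is filled
with 0. -/
def fw (m : ℕ) (c : Bool) (i : ℕ) : Option Bool :=
  if i = m ∨ i = 3 * m + 6 ∨ i = 5 * m + 13 ∨ i = 7 * m + 19 ∨ (c = true ∧ i = 4 * m + 11) then
    some false
  else if i = 4 * m + 10 ∨ i = 4 * m + 11 then none
  else some true

/-- The word of length `7m + 20 + s`. -/
def ww (m s : ℕ) (c : Bool) : PWord := (List.range (7 * m + 20 + s)).map (fw m c)

/-- the roots `X L p` of `ww m s c`, by positions -/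
lemma root_iff (m s : ℕ) (c : Bool) (L p : ℕ) (hL : 0 < L) :
    X L p ∈ squareRoots (ww m s c) ↔ ∃ i, i + 2 * L ≤ 7 * m + 20 + s ∧ ∀ j < 2 * L,
      ((i + j = m ∨ i + j = 3 * m + 6 ∨ i + j = 5 * m + 13 ∨ i + j = 7 * m + 19 ∨
        (c = true ∧ i + j = 4 * m + 11)) → ((j < L ∧ j = p) ∨ (L ≤ j ∧ j = p + L))) ∧
      (((j < L ∧ j = p) ∨ (L ≤ j ∧ j = p + L)) →
        (i + j = m ∨ i + j = 3 * m + 6 ∨ i + j = 5 * m + 13 ∨ i + j = 7 * m + 19 ∨
          i + j = 4 * m + 10 ∨ i + j = 4 * m + 11)) := by
  have hne : X L p ≠ [] := by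
    intro h
    have := congrArg List.length h
    rw [X_length] at this
    simp at this
    omega
  have h0 : X L p ∈ squareRoots (ww m s c) ↔
      ∃ u : PWord, u <:+: (List.range (7 * m + 20 + s)).map (fw m c) ∧
        ContainedIn u (X L p ++ X L p) :=
    ⟨fun h => h.2, fun h => ⟨hne, h⟩⟩
  rw [h0, factor_iff]
  simp only [XX_get, XX_length]
  refine exists_congr fun i => and_congr_right fun _ => forall₂_congr fun j hj => ?_
  unfold fw
  by_cases hz : i + j = m ∨ i + j = 3 * m + 6 ∨ i + j = 5 * m + 13 ∨ i + j = 7 * m + 19 ∨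
      (c = true ∧ i + j = 4 * m + 11)
  · rw [if_pos hz]
    constructor
    · intro h
      rcases h with h | h
      · exact absurd h (by simp)
      · have h2 := Option.some_injective _ h
        have h3 : (j < L ∧ j = p) ∨ (L ≤ j ∧ j = p + L) := by
          by_contra hc
          rw [decide_eq_true hc] at h2
          exact absurd h2 (by simp)
        exact ⟨fun _ => h3, fun _ => by tauto⟩
    · rintro ⟨h1, -⟩
      right
      have h3 := h1 hz
      rw [decide_eq_false (not_not.2 h3)]
  · rw [if_neg hz]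
    by_cases hh : i + j = 4 * m + 10 ∨ i + j = 4 * m + 11
    · rw [if_pos hh]
      exact ⟨fun _ => ⟨fun h => absurd h hz, fun _ => by tauto⟩, fun _ => Or.inl rfl⟩
    · rw [if_neg hh]
      constructor
      · intro h
        rcases h with h | h
        · exact absurd h (by simp)
        · have h2 := Option.some_injective _ h
          have h3 : ¬ ((j < L ∧ j = p) ∨ (L ≤ j ∧ j = p + L)) := of_decide_eq_true h2.symm
          exact ⟨fun h => absurd h hz, fun h => absurd h h3⟩
      · rintro ⟨-, h1⟩
        right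
        have h3 : ¬ ((j < L ∧ j = p) ∨ (L ≤ j ∧ j = p + L)) := by
          intro hc
          have := h1 hc
          tauto
        rw [decide_eq_true h3]

/-- the pairs (length, position) of the lost roots -/
def lostPairs (m σ : ℕ) : Finset (ℕ × ℕ) :=
  (((({m + 3} : Finset ℕ) ×ˢ Finset.Icc 0 (m + 3)) ∪ (({m + 4} : Finset ℕ) ×ˢ Finset.Icc 1 (m + 2))) ∪
    (({2 * m + 7} : Finset ℕ) ×ˢ Finset.Icc 1 (2 * m + 5))) ∪
    (({2 * m + 6} : Finset ℕ) ×ˢ (Finset.Icc 0 m ∪ Finset.Icc (2 * m + 5 - σ) (2 * m + 5)))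

lemma mem_lostPairs {m σ L p : ℕ} : (L, p) ∈ lostPairs m σ ↔
    (L = m + 3 ∧ p ≤ m + 3) ∨ (L = m + 4 ∧ 1 ≤ p ∧ p ≤ m + 2) ∨
    (L = 2 * m + 7 ∧ 1 ≤ p ∧ p ≤ 2 * m + 5) ∨
    (L = 2 * m + 6 ∧ (p ≤ m ∨ (2 * m + 5 - σ ≤ p ∧ p ≤ 2 * m + 5))) := by
  simp only [lostPairs, Finset.mem_union, Finset.mem_product, Finset.mem_singleton, Finset.mem_Icc]
  omega

lemma card_lostPairs (m σ : ℕ) (hσ : σ ≤ m + 3) : (lostPairs m σ).card = 5 * m + 13 + σ := by
  unfold lostPairs
  rw [Finset.card_union_of_disjoint, Finset.card_union_of_disjoint,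
    Finset.card_union_of_disjoint, Finset.card_product, Finset.card_product, Finset.card_product,
    Finset.card_product, Finset.card_union_of_disjoint]
  · simp only [Nat.card_Icc, Finset.card_singleton]
    omega
  · rw [Finset.disjoint_left]
    intro a h1 h2
    rw [Finset.mem_Icc] at h1 h2
    omega
  · rw [Finset.disjoint_left]
    rintro ⟨a, b⟩ h1 h2
    simp only [Finset.mem_product, Finset.mem_singleton, Finset.mem_Icc] at h1 h2
    omega
  · rw [Finset.disjoint_left]
    rintro ⟨a, b⟩ h1 h2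
    simp only [Finset.mem_union, Finset.mem_product, Finset.mem_singleton, Finset.mem_Icc] at h1 h2
    omega
  · rw [Finset.disjoint_left]
    rintro ⟨a, b⟩ h1 h2
    simp only [Finset.mem_union, Finset.mem_product, Finset.mem_singleton, Finset.mem_Icc] at h1 h2
    omega

/-- the lost words are square roots of the word with both holes -/
lemma pos {m s σ L p : ℕ} (hs : σ ≤ s) (hσ : σ ≤ m + 3) (h : (L, p) ∈ lostPairs m σ) :
    X L p ∈ squareRoots (ww m s false) := by
  rw [mem_lostPairs] at h
  rw [root_iff m s false L p (by omega)]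
  have hf : ∀ q : Prop, ((false = true ∧ q) ↔ False) := by simp
  simp only [hf, or_false]
  rcases h with ⟨rfl, h1⟩ | ⟨rfl, h1, h2⟩ | ⟨rfl, h1, h2⟩ | ⟨rfl, h1 | ⟨h1, h2⟩⟩
  · rcases Nat.lt_or_ge p (m + 3) with h2 | h2
    · refine ⟨4 * m + 10 - p, by omega, fun j hj => ⟨fun hz => ?_, fun hz => ?_⟩⟩ <;> omega
    · refine ⟨3 * m + 7, by omega, fun j hj => ⟨fun hz => ?_, fun hz => ?_⟩⟩ <;> omega
  · refine ⟨3 * m + 6 - p, by omega, fun j hj => ⟨fun hz => ?_, fun hz => ?_⟩⟩ <;> omega
  · refine ⟨3 * m + 6 - p, by omega, fun j hj => ⟨fun hz => ?_, fun hz => ?_⟩⟩ <;> omega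
  · refine ⟨m - p, by omega, fun j hj => ⟨fun hz => ?_, fun hz => ?_⟩⟩ <;> omega
  · refine ⟨5 * m + 13 - p, by omega, fun j hj => ⟨fun hz => ?_, fun hz => ?_⟩⟩ <;> omega

/-- the lost words are not square roots of the word with the hole `#` filled by 0 -/
lemma neg {m s σ L p : ℕ} (hs : s ≤ m + 4) (hσ : σ ≤ m + 3) (h : (L, p) ∈ lostPairs m σ) :
    X L p ∉ squareRoots (ww m s true) := by
  rw [mem_lostPairs] at h
  rw [root_iff m s true L p (by omega)]
  rintro ⟨i, hi, hj⟩
  simp only [true_and] at hj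
  have z1 : i ≤ m → m < i + 2 * L → (m - i = p ∧ m - i < L) ∨ m - i = p + L := by
    intro h1 h2
    have := (hj (m - i) (by omega)).1 (by omega)
    omega
  have z2 : i ≤ 3 * m + 6 → 3 * m + 6 < i + 2 * L →
      (3 * m + 6 - i = p ∧ 3 * m + 6 - i < L) ∨ 3 * m + 6 - i = p + L := by
    intro h1 h2
    have := (hj (3 * m + 6 - i) (by omega)).1 (by omega)
    omega
  have z3 : i ≤ 4 * m + 11 → 4 * m + 11 < i + 2 * L →
      (4 * m + 11 - i = p ∧ 4 * m + 11 - i < L) ∨ 4 * m + 11 - i = p + L := by
    intro h1 h2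
    have := (hj (4 * m + 11 - i) (by omega)).1 (by omega)
    omega
  have z4 : i ≤ 5 * m + 13 → 5 * m + 13 < i + 2 * L →
      (5 * m + 13 - i = p ∧ 5 * m + 13 - i < L) ∨ 5 * m + 13 - i = p + L := by
    intro h1 h2
    have := (hj (5 * m + 13 - i) (by omega)).1 (by omega)
    omega
  have z5 : i ≤ 7 * m + 19 → 7 * m + 19 < i + 2 * L →
      (7 * m + 19 - i = p ∧ 7 * m + 19 - i < L) ∨ 7 * m + 19 - i = p + L := by
    intro h1 h2
    have := (hj (7 * m + 19 - i) (by omega)).1 (by omega)
    omega
  have y1 : p < L → i + p = m ∨ i + p = 3 * m + 6 ∨ i + p = 5 * m + 13 ∨ i + p = 7 * m + 19 ∨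
      i + p = 4 * m + 10 ∨ i + p = 4 * m + 11 := by
    intro h1
    exact (hj p (by omega)).2 (by omega)
  have y2 : p < L → i + p + L = m ∨ i + p + L = 3 * m + 6 ∨ i + p + L = 5 * m + 13 ∨
      i + p + L = 7 * m + 19 ∨ i + p + L = 4 * m + 10 ∨ i + p + L = 4 * m + 11 := by
    intro h1
    have := (hj (p + L) (by omega)).2 (by omega)
    omega
  clear hj
  rcases h with ⟨rfl, h1⟩ | ⟨rfl, h1, h2⟩ | ⟨rfl, h1, h2⟩ | ⟨rfl, h1 | ⟨h1, h2⟩⟩ <;> omega

/-! ### Finiteness and counting -/

lemma ww_length (m s : ℕ) (c : Bool) : (ww m s c).length = 7 * m + 20 + s := by simp [ww]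

lemma squareRoots_finite (w : PWord) : (squareRoots w).Finite := by
  refine (List.finite_length_le Bool w.length).subset ?_
  rintro x ⟨-, u, hu, hc⟩
  have h1 := hu.length_le
  have h2 := hc.length_eq
  rw [List.length_append] at h2
  show x.length ≤ w.length
  omega

lemma roots_subset (m s : ℕ) : squareRoots (ww m s true) ⊆ squareRoots (ww m s false) := by
  rintro x ⟨hx, h⟩
  refine ⟨hx, ?_⟩
  have h' : ∃ u : PWord, u <:+: (List.range (7 * m + 20 + s)).map (fw m true) ∧
    ContainedIn u (x ++ x) := h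
  show ∃ u : PWord, u <:+: (List.range (7 * m + 20 + s)).map (fw m false) ∧
    ContainedIn u (x ++ x)
  rw [factor_iff] at h' ⊢
  obtain ⟨i, hi, hj⟩ := h'
  refine ⟨i, hi, fun j hjl => ?_⟩
  have h1 := hj j hjl
  have h2 : fw m false (i + j) = none ∨ fw m false (i + j) = fw m true (i + j) := by
    unfold fw
    by_cases hz : i + j = 4 * m + 11
    · left
      rw [if_neg (by simp; omega), if_pos (by omega)]
    · right
      simp only [hz, and_false, Bool.false_eq_true]
  rcases h2 with h2 | h2
  · exact Or.inl h2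
  · rw [h2]
    exact h1

lemma drop_bound {m s σ : ℕ} (hs : s ≤ m + 4) (hσs : σ ≤ s) (hσ : σ ≤ m + 3) :
    ((5 * m + 13 + σ : ℕ) : ℤ) ≤ (Sq (ww m s false) : ℤ) - (Sq (ww m s true) : ℤ) := by
  classical
  set T : Set (List Bool) := (fun q : ℕ × ℕ => X q.1 q.2) '' (lostPairs m σ : Set (ℕ × ℕ)) with hT
  have hTc : T.ncard = 5 * m + 13 + σ := by
    rw [hT, Set.InjOn.ncard_image, Set.ncard_coe_finset, card_lostPairs m σ hσ]
    rintro ⟨L, p⟩ h1 ⟨L', p'⟩ h2 he
    rw [Finset.mem_coe, mem_lostPairs] at h1 h2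
    obtain ⟨e1, e2⟩ := X_inj he (by simp only; omega) (by simp only; omega)
    exact Prod.ext e1 e2
  have hTf : T.Finite := (lostPairs m σ).finite_toSet.image _
  have hdis : Disjoint T (squareRoots (ww m s true)) := by
    rw [Set.disjoint_left]
    rintro _ ⟨⟨L, p⟩, h, rfl⟩
    exact neg hs hσ (Finset.mem_coe.1 h)
  have hsub : T ∪ squareRoots (ww m s true) ⊆ squareRoots (ww m s false) := by
    refine Set.union_subset ?_ (roots_subset m s)
    rintro _ ⟨⟨L, p⟩, h, rfl⟩
    exact pos hσs hσ (Finset.mem_coe.1 h)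
  have h1 := Set.ncard_le_ncard hsub (squareRoots_finite _)
  rw [Set.ncard_union_eq hdis hTf (squareRoots_finite _), hTc] at h1
  unfold Sq
  omega

lemma count_map_range (n : ℕ) (f : ℕ → Option Bool) :
    ((List.range n).map f).count none = ((Finset.range n).filter fun i => f i = none).card := by
  induction n with
  | zero => rfl
  | succ n ih =>
    rw [List.range_succ, List.map_append, List.count_append, ih, Finset.range_add_one,
      Finset.filter_insert]
    by_cases h : f n = none
    · rw [if_pos h, Finset.card_insert_of_notMem (by simp)]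
      simp [h]
    · rw [if_neg h]
      simp [h]

lemma holes_ww (m s : ℕ) : holes (ww m s false) = 2 := by
  unfold holes ww
  rw [count_map_range]
  have h : (Finset.range (7 * m + 20 + s)).filter (fun i => fw m false i = none) =
      {4 * m + 10, 4 * m + 11} := by
    ext i
    simp only [Finset.mem_filter, Finset.mem_range, Finset.mem_insert, Finset.mem_singleton]
    unfold fw
    by_cases hz : i = m ∨ i = 3 * m + 6 ∨ i = 5 * m + 13 ∨ i = 7 * m + 19 ∨
        (false = true ∧ i = 4 * m + 11)
    · rw [if_pos hz]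
      simp only [reduceCtorEq, and_false, false_iff, not_or]
      simp only [Bool.false_eq_true, false_and, or_false] at hz
      omega
    · rw [if_neg hz]
      by_cases hh : i = 4 * m + 10 ∨ i = 4 * m + 11
      · rw [if_pos hh]
        simp only [and_true, hh, iff_true]
        omega
      · rw [if_neg hh]
        simp only [reduceCtorEq, and_false, hh]
  rw [h, Finset.card_pair (by omega)]

lemma strengthening_ww (m s : ℕ) : Strengthening (ww m s false) (ww m s true) := by
  refine ⟨4 * m + 11, false, ?_, ?_⟩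
  · unfold ww
    rw [List.getElem?_map, List.getElem?_range (by omega)]
    simp only [Option.map_some, Option.some.injEq]
    unfold fw
    rw [if_neg (by simp; omega), if_pos (by omega)]
  · refine List.ext_getElem (by simp [ww]) fun k h1 h2 => ?_
    rw [List.getElem_set]
    simp only [ww, List.getElem_map, List.getElem_range]
    by_cases hk : 4 * m + 11 = k
    · rw [if_pos hk]
      unfold fw
      rw [if_pos (by simp; omega)]
    · rw [if_neg hk]
      have hk' : ¬ k = 4 * m + 11 := fun h => hk h.symm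
      unfold fw
      simp only [hk', and_false]

lemma drops_finite (h n : ℕ) : (drops h n).Finite := by
  have hf : {w : PWord | w.length = n}.Finite := List.finite_length_eq (Option Bool) n
  have h2 : ((fun p : PWord × PWord => (Sq p.1 : ℤ) - (Sq p.2 : ℤ)) ''
      ({w : PWord | w.length = n} ×ˢ {w : PWord | w.length = n})).Finite :=
    (hf.prod hf).image _
  apply h2.subset
  rintro d ⟨w, w', hw, -, ⟨i, c, -, rfl⟩, rfl⟩
  exact ⟨(w, w.set i (some c)), ⟨hw, by simpa using hw⟩, rfl⟩

/-- The general lower bound. -/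
lemma general (m s : ℕ) (hs : s ≤ m + 4) :
    ∃ M : ℤ, IsGreatest (drops 2 (7 * m + 20 + s)) M ∧
      ((5 * m + 13 + min s (m + 3) : ℕ) : ℤ) ≤ M := by
  have hd : (Sq (ww m s false) : ℤ) - (Sq (ww m s true) : ℤ) ∈ drops 2 (7 * m + 20 + s) :=
    ⟨ww m s false, ww m s true, ww_length m s false, holes_ww m s, strengthening_ww m s, rfl⟩
  obtain ⟨M, hM, hmax⟩ := Set.exists_max_image (drops 2 (7 * m + 20 + s)) id
    (drops_finite 2 _) ⟨_, hd⟩
  exact ⟨M, ⟨hM, fun b hb => hmax b hb⟩,
    (drop_bound hs (min_le_left s (m + 3)) (min_le_right s (m + 3))).trans (hmax _ hd)⟩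

/-- For `n = 22, 23, 28, …, 32, 35, …, 40` and for every `n ≥ 42` the largest drop with two holes
exists, exceeds `⌊7(n-1)/10⌋` and is at least `(3n - 11)/4`. -/
theorem result (n : ℕ)
    (hn : n = 22 ∨ n = 23 ∨ (28 ≤ n ∧ n ≤ 32) ∨ (35 ≤ n ∧ n ≤ 40) ∨ 42 ≤ n) :
    ∃ M : ℤ, IsGreatest (drops 2 n) M ∧ ⌊(7 * ((n : ℚ) - 1) / 10)⌋ < M ∧
      3 * (n : ℤ) - 11 ≤ 4 * M := by
  obtain ⟨m, s, hms, hs, hb⟩ : ∃ m s : ℕ, 7 * m + 20 + s = n ∧ s ≤ m + 4 ∧
      7 * n < 10 * (5 * m + 13 + min s (m + 3)) + 7 :=
    ⟨(n - 20) / 7, (n - 20) % 7, by omega, by omega, by omega⟩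
  obtain ⟨M, hM, hle⟩ := general m s hs
  rw [hms] at hM
  obtain ⟨m', s', hms', hs', hb'⟩ : ∃ m s : ℕ, 7 * m + 20 + s = n ∧ s ≤ m + 4 ∧
      3 * n ≤ 4 * (5 * m + 13 + min s (m + 3)) + 11 :=
    ⟨(n - 17) / 8, n - 20 - 7 * ((n - 17) / 8), by omega, by omega, by omega⟩
  obtain ⟨M', hM', hle'⟩ := general m' s' hs'
  rw [hms'] at hM'
  have hMM : M' = M := hM'.unique hM
  refine ⟨M, hM, ?_, by omega⟩
  rw [Int.floor_lt]
  have h1 : (7 * (n : ℤ)) < 10 * M + 7 := by omega
  have h2 : (7 * (n : ℚ)) < 10 * (M : ℚ) + 7 := by exact_mod_cast h1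
  linarith

end Pool.Agent.Results.MP_322323_co.FailsForLargeN
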